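import Pool.Agent.H185Z.MM.Final

/-!
# Matroid matching in hypergraphic matroids is solvable in polynomial time

A family of hyperedges is independent iff one can pick an edge inside each hyperedge so that the
picked edges form a forest. Give every hyperedge `e` a token `x_e` (a new basis vector), take a line
`(u v, x_e)` for all `u, v` in `e` and a line `(x_e, x_f)` for each pair `(e, f)`: the maximum matching
of this graphic instance is the number of pairs plus the optimum. Linear matroid matching over a
prime field is solved by a deterministic local search which maximises the sum of the ranks of
polynomially many test matrices built from `A(x) = ∑ x_i (a_i b_iᵀ - b_i a_iᵀ)`; at a local optimum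
the rank of `A(x)` is twice the size of a maximum matching.
-/

namespace Pool.Agent.Results.MP_0c5eb8_lc.APolyTime

open Pool.Agent.NPC Pool.Agent.H185Z.MM

/-- Some polynomial-time Turing machine computes, for every hypergraph with a partition of its
hyperedges into pairs, the maximum number of pairs whose union is independent in the hypergraphic
matroid. -/
theorem result : ∃ f : List Bool → List Bool, PolyTime f ∧
    ∀ (V : List ℕ) (E : List (List ℕ)) (P : List (ℕ × ℕ)), Valid V E P →
      ∃ k : ℕ, f (bits (V, E, P)) = bits k ∧ IsGreatest (matchingSizes E P) k :=
  main

end Pool.Agent.Results.MP_0c5eb8_lc.APolyTime
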